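import Pool.Agent.LAT.StmtsW

/-!
# Row PRS of squad LAT: reading of the code of an instance
-/

set_option autoImplicit false

namespace Pool.Agent.LAT.H96

open Pool.Agent.PAR Matrix

theorem lead_rep (n : ℕ) (u : Word) : lead (List.replicate n true ++ false :: u) = n := by
  unfold lead
  rw [List.takeWhile_append_of_pos (fun a ha => by
    rw [List.mem_replicate] at ha; simp [ha.2])]
  simp

theorem drop_rep (n : ℕ) (u : Word) :
    (List.replicate n true ++ false :: u).drop (n + 1) = u := by
  rw [List.drop_append]
  simp

theorem bits_length (w : ℕ) (z : ℤ) : (bits w z).length = w := by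
  unfold bits; simp

theorem flat_length {α : Type} : ∀ (n : ℕ) (g : Fin n → List α) (c : ℕ),
    (∀ i, (g i).length = c) → ((List.ofFn g).flatten).length = n * c
  | 0, g, c, _ => by simp
  | n + 1, g, c, h => by
    rw [List.ofFn_succ, List.flatten_cons, List.length_append, h 0,
      flat_length n (fun i => g i.succ) c (fun i => h i.succ)]
    ring

theorem flat_drop {α : Type} : ∀ (n : ℕ) (g : Fin n → List α) (c : ℕ),
    (∀ i, (g i).length = c) → ∀ (i : Fin n) (v : List α),
    ∃ r, ((List.ofFn g).flatten ++ v).drop (i.1 * c) = g i ++ r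
  | 0, g, c, _, i, v => i.elim0
  | n + 1, g, c, h, i, v => by
    rw [List.ofFn_succ, List.flatten_cons, List.append_assoc]
    refine Fin.cases ?_ (fun i' => ?_) i
    · exact ⟨(List.ofFn fun i => g i.succ).flatten ++ v, by simp⟩
    · obtain ⟨r, hr⟩ := flat_drop n (fun i => g i.succ) c (fun i => h i.succ) i' v
      refine ⟨r, ?_⟩
      have e : (Fin.succ i').1 * c = (g 0).length + i'.1 * c := by
        rw [h 0, Fin.val_succ]; ring
      rw [e, ← List.drop_drop, List.drop_left, hr]

theorem num_of_drop {x : Word} {s l : ℕ} {u r : Word} (hl : u.length = l)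
    (h : x.drop s = u ++ r) : num x s l = ival u := by
  unfold num
  rw [h, ← hl, List.take_left]

theorem prs (hWda : WdaStmt) : PrsStmt := by
  intro n m w A D hI
  set row : Fin n → Word := fun i => (List.ofFn fun j => bits (w + 1) (A i j)).flatten with hrow
  have hrl : ∀ i, (row i).length = m * (w + 1) := fun i =>
    flat_length m _ (w + 1) (fun j => bits_length _ _)
  set E : Word := (List.ofFn row).flatten with hE
  have hEl : E.length = n * (m * (w + 1)) := flat_length n row _ hrl
  have henc : enc n m w A D = List.replicate n true ++ false :: (List.replicate m true ++ false ::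
      (List.replicate w true ++ false :: (E ++ bits (w + 1) D))) := rfl
  have hpn : pn (enc n m w A D) = n := by
    unfold pn; rw [henc, lead_rep]
  have hx1 : x1 (enc n m w A D) = List.replicate m true ++ false ::
      (List.replicate w true ++ false :: (E ++ bits (w + 1) D)) := by
    unfold x1; rw [hpn, henc, drop_rep]
  have hpm : pm (enc n m w A D) = m := by
    unfold pm; rw [hx1, lead_rep]
  have hx2 : x2 (enc n m w A D) = List.replicate w true ++ false :: (E ++ bits (w + 1) D) := by
    unfold x2; rw [hpm, hx1, drop_rep]
  have hpw : pw (enc n m w A D) = w := by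
    unfold pw; rw [hx2, lead_rep]
  have hx3 : x3 (enc n m w A D) = E ++ bits (w + 1) D := by
    unfold x3; rw [hpw, hx2, drop_rep]
  refine ⟨hpn, hpm, hpw, ?_, ?_, ?_⟩
  · intro i j
    unfold pa
    rw [hx3, hpm, hpw]
    obtain ⟨r, hr⟩ := flat_drop n row (m * (w + 1)) hrl i (bits (w + 1) D)
    obtain ⟨r', hr'⟩ := flat_drop m (fun j => bits (w + 1) (A i j)) (w + 1)
      (fun j => bits_length _ _) j r
    have e : (i.1 * m + j.1) * (w + 1) = i.1 * (m * (w + 1)) + j.1 * (w + 1) := by ring
    have key : (E ++ bits (w + 1) D).drop ((i.1 * m + j.1) * (w + 1)) =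
        bits (w + 1) (A i j) ++ r' := by
      rw [e, ← List.drop_drop, hE, hr, hr']
    rw [num_of_drop (bits_length _ _) key]
    have hb := abs_lt.mp (hI.entries i j)
    exact hWda w _ hb.1.le hb.2
  · unfold pD
    rw [hx3, hpn, hpm, hpw]
    have key : (E ++ bits (w + 1) D).drop (n * m * (w + 1)) = bits (w + 1) D ++ [] := by
      have e : n * m * (w + 1) = E.length := by rw [hEl]; ring
      rw [e, List.drop_left, List.append_nil]
    rw [num_of_drop (bits_length _ _) key]
    exact hWda w _ (le_trans (by simp) hI.nonneg) hI.bound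
  · rw [henc]
    simp only [List.length_append, List.length_cons, List.length_replicate, hEl, bits_length]
    ring

end Pool.Agent.LAT.H96
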